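import Pool.Agent.Helper37.RT.Defs

/-!
Row T9 (MP_b01677_an, d = 2): one stage of the construction.
-/

namespace Pool.Agent.Helper37.RT

open MeasureTheory Set Filter Topology

/-! ### Elementary estimates -/

theorem t9_exp {w x : ℝ} (hw : 0 < w) (h : w * Real.exp x ≤ 1) : x ≤ Real.log (1 / w) := by
  rw [Real.le_log_iff_exp_le (by positivity), le_div_iff₀ hw]
  linarith

theorem t9_comb {S V K μ A2 : ℝ} (hK : 0 < K) (hμ : 0 < μ)
    (h1 : μ * K * S - (μ * K) ^ 2 * (A2 / K) / 2 * V ≤ 60 * K)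
    (h2 : -(μ * K) * S - (-(μ * K)) ^ 2 * (A2 / K) / 2 * V ≤ 60 * K) :
    |S| ≤ 60 / μ + μ * A2 / 2 * V := by
  have e1 : (μ * K) ^ 2 * (A2 / K) / 2 * V = (μ * K) * (μ * A2 / 2 * V) := by
    field_simp
  have e2 : (-(μ * K)) ^ 2 * (A2 / K) / 2 * V = (μ * K) * (μ * A2 / 2 * V) := by
    field_simp
  have e3 : 60 * K = (μ * K) * (60 / μ) := by field_simp
  rw [e1, e3] at h1
  rw [e2, e3] at h2
  have hp : 0 < μ * K := mul_pos hμ hK
  rw [abs_le]
  constructor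
  · have : (μ * K) * (-S) ≤ (μ * K) * (60 / μ + μ * A2 / 2 * V) := by linarith
    have := le_of_mul_le_mul_left this hp
    linarith
  · have : (μ * K) * S ≤ (μ * K) * (60 / μ + μ * A2 / 2 * V) := by linarith
    exact le_of_mul_le_mul_left this hp

theorem t9_card (k : ℕ) : (cells k).card = 4 ^ k := by
  unfold cells
  rw [Finset.card_product, Finset.card_range, ← mul_pow]
  norm_num

theorem t9_geom (q : ℝ) (hq : 2 ≤ q) (K n : ℕ) :
    ∑ k ∈ Finset.Ico K (K + n), q ^ k ≤ q ^ (K + n) := by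
  induction n with
  | zero => simp; positivity
  | succ n ih =>
    rw [← Nat.add_assoc, Finset.sum_Ico_succ_top (by omega), pow_succ]
    have : 0 ≤ q ^ (K + n) := by positivity
    nlinarith

/-- Cauchy - Schwarz -/
theorem t9_cs {s b : ℕ → ℕ × ℕ → ℝ} {A : ℝ} (hA : 0 ≤ A) (hs : ∀ k c, |s k c| ≤ A) (K n : ℕ)
    (hb : ener b K n ≤ 4 / 3) : |lin s b K n| ≤ 2 * A * 2 ^ (K + n) := by
  have h1 : (lin s b K n) ^ 2 ≤ (∑ k ∈ Finset.Ico K (K + n), ∑ c ∈ cells k, (s k c) ^ 2)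
      * ener b K n := by
    unfold lin ener
    rw [Finset.sum_sigma', Finset.sum_sigma', Finset.sum_sigma']
    exact Finset.sum_mul_sq_le_sq_mul_sq _ _ _
  have h2 : ∑ k ∈ Finset.Ico K (K + n), ∑ c ∈ cells k, (s k c) ^ 2 ≤ A ^ 2 * 4 ^ (K + n) := by
    calc ∑ k ∈ Finset.Ico K (K + n), ∑ c ∈ cells k, (s k c) ^ 2
        ≤ ∑ k ∈ Finset.Ico K (K + n), A ^ 2 * 4 ^ k := by
          refine Finset.sum_le_sum fun k _ => ?_
          calc ∑ c ∈ cells k, (s k c) ^ 2 ≤ ∑ _c ∈ cells k, A ^ 2 := by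
                refine Finset.sum_le_sum fun c _ => ?_
                rw [← sq_abs]
                exact pow_le_pow_left₀ (abs_nonneg _) (hs k c) 2
            _ = A ^ 2 * 4 ^ k := by
                rw [Finset.sum_const, t9_card, nsmul_eq_mul]
                push_cast
                ring
      _ = A ^ 2 * ∑ k ∈ Finset.Ico K (K + n), (4 : ℝ) ^ k := by rw [Finset.mul_sum]
      _ ≤ A ^ 2 * 4 ^ (K + n) := by
          apply mul_le_mul_of_nonneg_left (t9_geom 4 (by norm_num) K n) (sq_nonneg _)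
  have h3 : (lin s b K n) ^ 2 ≤ (2 * A * 2 ^ (K + n)) ^ 2 := by
    have h4 : (2 * A * 2 ^ (K + n)) ^ 2 = A ^ 2 * 4 ^ (K + n) * 4 := by
      have : (4 : ℝ) ^ (K + n) = (2 ^ (K + n)) ^ 2 := by
        rw [← pow_mul, mul_comm, pow_mul]; norm_num
      rw [this]; ring
    rw [h4]
    have h5 : 0 ≤ ener b K n := by
      unfold ener
      exact Finset.sum_nonneg fun k _ => Finset.sum_nonneg fun c _ => sq_nonneg _
    have h6 : 0 ≤ A ^ 2 * 4 ^ (K + n) := by positivity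
    calc (lin s b K n) ^ 2 ≤ _ := h1
      _ ≤ (A ^ 2 * 4 ^ (K + n)) * (4 / 3) := mul_le_mul h2 hb h5 h6
      _ ≤ A ^ 2 * 4 ^ (K + n) * 4 := by nlinarith
  exact abs_le_of_sq_le_sq h3 (by positivity)

/-- comparison of two arrays -/
theorem t9_cmp {s b b' : ℕ → ℕ × ℕ → ℝ} {A D : ℝ} (hA : 0 ≤ A) (hD : 0 ≤ D)
    (hs : ∀ k c, |s k c| ≤ A) (K n : ℕ) (hb : ∀ k c, |b k c - b' k c| ≤ D * 4 ^ k) :
    |lin s b K n - lin s b' K n| ≤ A * D * 16 ^ (K + n) := by
  unfold lin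
  rw [← Finset.sum_sub_distrib]
  refine (Finset.abs_sum_le_sum_abs _ _).trans ?_
  calc ∑ k ∈ Finset.Ico K (K + n), |∑ c ∈ cells k, s k c * b k c - ∑ c ∈ cells k, s k c * b' k c|
      ≤ ∑ k ∈ Finset.Ico K (K + n), A * D * 16 ^ k := by
        refine Finset.sum_le_sum fun k _ => ?_
        rw [← Finset.sum_sub_distrib]
        refine (Finset.abs_sum_le_sum_abs _ _).trans ?_
        calc ∑ c ∈ cells k, |s k c * b k c - s k c * b' k c|
            ≤ ∑ _c ∈ cells k, A * (D * 4 ^ k) := by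
              refine Finset.sum_le_sum fun c _ => ?_
              rw [← mul_sub, abs_mul]
              exact mul_le_mul (hs k c) (hb k c) (abs_nonneg _) hA
          _ = A * D * 16 ^ k := by
              rw [Finset.sum_const, t9_card, nsmul_eq_mul]
              push_cast
              have : (16 : ℝ) ^ k = 4 ^ k * 4 ^ k := by rw [← mul_pow]; norm_num
              rw [this]; ring
    _ = A * D * ∑ k ∈ Finset.Ico K (K + n), (16 : ℝ) ^ k := by rw [Finset.mul_sum]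
    _ ≤ A * D * 16 ^ (K + n) :=
        mul_le_mul_of_nonneg_left (t9_geom 16 (by norm_num) K n) (by positivity)

theorem t9_vol : (volume BB).toReal = 1 := by
  unfold BB
  rw [Measure.volume_eq_prod, Measure.prod_prod, Real.volume_Ico]
  simp

theorem t9_vol' : volume BB < ⊤ := by
  unfold BB
  rw [Measure.volume_eq_prod, Measure.prod_prod, Real.volume_Ico]
  simp

theorem t9_qq_nonneg {g : ℝ × ℝ → ℝ} (h : ∀ y, 0 ≤ g y ∧ g y ≤ 1) : 0 ≤ qq g := by
  unfold qq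
  apply integral_nonneg
  intro y
  have := h y
  exact mul_nonneg this.1 (by linarith)

theorem t9_qq_le {g : ℝ × ℝ → ℝ} (h : ∀ y, 0 ≤ g y ∧ g y ≤ 1) : qq g ≤ 1 / 4 := by
  have h1 : ‖∫ y in BB, g y * (1 - g y)‖ ≤ 1 / 4 * (volume BB).toReal := by
    apply norm_setIntegral_le_of_norm_le_const t9_vol'
    intro y _
    have := h y
    rw [Real.norm_eq_abs, abs_le]
    constructor
    · nlinarith
    · nlinarith [sq_nonneg (g y - 1 / 2)]
  rw [t9_vol, mul_one, Real.norm_eq_abs] at h1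
  exact (le_abs_self _).trans h1

theorem t9_qvar_nonneg (s : ℕ → ℕ × ℕ → ℝ) (K n : ℕ) : 0 ≤ qvar s K n := by
  unfold qvar
  have : 0 ≤ ∑ k ∈ Finset.Ico K (K + n), ∑ c ∈ cells k, (1 / 4 : ℝ) ^ k * (s k c) ^ 2 :=
    Finset.sum_nonneg fun k _ => Finset.sum_nonneg fun c _ => by positivity
  positivity

/-- the logarithm of the weights -/
theorem t9_log {δ : ℝ} (hδ : 0 < δ) {K : ℕ} (hK : Real.log (8 / δ) ≤ 12 * K) :
    Real.log (1 / (δ / (8 * (2 ^ (23 * K)) ^ 3))) ≤ 60 * K := by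
  have h1 : 1 / (δ / (8 * ((2 : ℝ) ^ (23 * K)) ^ 3)) = (8 / δ) * (2 : ℝ) ^ (69 * K) := by
    have : ((2 : ℝ) ^ (23 * K)) ^ 3 = 2 ^ (69 * K) := by
      rw [← pow_mul]; congr 1; ring
    rw [this]
    field_simp
  rw [h1, Real.log_mul (by positivity) (by positivity), Real.log_pow]
  have h2 := Real.log_two_lt_d9
  have h3 : (0 : ℝ) ≤ K := Nat.cast_nonneg K
  push_cast
  nlinarith

/-- row T7 -/
def T9Process : Prop := ∀ (g₀ : ℝ × ℝ → ℝ) (Λ : ℝ), Adm Λ g₀ → ∀ A : ℝ, 0 < A → ∀ K : ℕ,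
  Λ * (1 / 2) ^ K ≤ A → ∀ (τ : Type) (Θ : Finset τ) (w lam : τ → ℝ), (∀ t ∈ Θ, 0 ≤ w t) →
  ∀ (b : τ → ℕ → ℕ × ℕ → ℝ) (κ δ : ℝ), 0 ≤ κ → 9 * κ / (4 * A ^ 2) + 19 * A ≤ δ → ∀ n : ℕ,
    ∃ s : ℕ → ℕ × ℕ → ℝ, (∀ k c, |s k c| ≤ A) ∧
      (∀ y, 0 ≤ g₀ y + corr s K n y ∧ g₀ y + corr s K n y ≤ 1) ∧
      ∑ t ∈ Θ, w t * Real.exp (lam t * lin s (b t) K n - lam t ^ 2 * A ^ 2 / 2 * ener (b t) K n)
        + 2 * qq (fun y => g₀ y + corr s K n y) + qvar s K n + ∫ y in BB, (corr s K n y) ^ 2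
        ≤ ∑ t ∈ Θ, w t + 2 * qq g₀ ∧
      (qq (fun y => g₀ y + corr s K n y) ≤ δ ∨ n * κ ≤ qvar s K n)

/-- the net -/
noncomputable def t9r (K : ℕ) (p : ℕ × ℕ × ℕ) : ℝ := 1 + p.1 * (1 / 2 ^ (17 * K))

/-- the net -/
noncomputable def t9x (K : ℕ) (p : ℕ × ℕ × ℕ) : ℝ × ℝ :=
  (-2 ^ (5 * K) + p.2.1 * (1 / 2 ^ (17 * K)), -2 ^ (5 * K) + p.2.2 * (1 / 2 ^ (17 * K)))

/-- the net is dense -/
theorem t9_dense {K : ℕ} (hK : 2 ≤ K) {r : ℝ} (hr : 1 ≤ r) (hr' : r ≤ 2 ^ (4 * K)) {x : ℝ × ℝ}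
    (hx : ‖x‖ ≤ 2 ^ (5 * K)) :
    ∃ p : ℕ × ℕ × ℕ, p.1 < 2 ^ (23 * K) ∧ p.2.1 < 2 ^ (23 * K) ∧ p.2.2 < 2 ^ (23 * K) ∧
      t9r K p ≤ r ∧ 1 ≤ t9r K p ∧
      |r - t9r K p| + dist x (t9x K p) ≤ 2 * (1 / 2 ^ (17 * K)) := by
  set ρ : ℝ := 1 / 2 ^ (17 * K) with hρ
  have hρ0 : 0 < ρ := by positivity
  set X : ℝ := 2 ^ (5 * K) with hX
  have key : ∀ u : ℝ, 0 ≤ u → u ≤ 2 * X → ∃ a : ℕ, a < 2 ^ (23 * K) ∧ (a : ℝ) * ρ ≤ u ∧
      u - a * ρ ≤ ρ := by
    intro u hu0 hu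
    refine ⟨⌊u / ρ⌋₊, ?_, ?_, ?_⟩
    · rw [Nat.floor_lt (by positivity)]
      rw [hρ, div_div_eq_mul_div, div_one]
      push_cast
      calc u * 2 ^ (17 * K) ≤ (2 * X) * 2 ^ (17 * K) := by
            apply mul_le_mul_of_nonneg_right hu (by positivity)
        _ = 2 ^ (22 * K + 1) := by
            rw [hX, pow_succ]
            have : (2 : ℝ) ^ (22 * K) = 2 ^ (5 * K) * 2 ^ (17 * K) := by
              rw [← pow_add]; congr 1; ring
            rw [this]; ring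
        _ < 2 ^ (23 * K) := by
            apply pow_lt_pow_right₀ one_lt_two
            omega
    · have := Nat.floor_le (a := u / ρ) (by positivity)
      rwa [le_div_iff₀ hρ0] at this
    · have := Nat.lt_floor_add_one (u / ρ)
      rw [div_lt_iff₀ hρ0] at this
      linarith
  have hX1 : (2 : ℝ) ^ (4 * K) ≤ X := by
    rw [hX]
    apply pow_le_pow_right₀ one_le_two
    omega
  have hx1 : |x.1| ≤ X := by
    have : ‖x.1‖ ≤ ‖x‖ := norm_fst_le x
    rw [Real.norm_eq_abs] at this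
    exact this.trans hx
  have hx2 : |x.2| ≤ X := by
    have : ‖x.2‖ ≤ ‖x‖ := norm_snd_le x
    rw [Real.norm_eq_abs] at this
    exact this.trans hx
  rw [abs_le] at hx1 hx2
  obtain ⟨a, ha1, ha2, ha3⟩ := key (r - 1) (by linarith) (by linarith)
  obtain ⟨b, hb1, hb2, hb3⟩ := key (x.1 + X) (by linarith) (by linarith)
  obtain ⟨c, hc1, hc2, hc3⟩ := key (x.2 + X) (by linarith) (by linarith)
  refine ⟨(a, b, c), ha1, hb1, hc1, ?_, ?_, ?_⟩
  · show 1 + (a : ℝ) * ρ ≤ r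
    linarith
  · show 1 ≤ 1 + (a : ℝ) * ρ
    have : 0 ≤ (a : ℝ) * ρ := by positivity
    linarith
  · have h1 : |r - t9r K (a, b, c)| ≤ ρ := by
      show |r - (1 + (a : ℝ) * ρ)| ≤ ρ
      rw [abs_le]
      constructor <;> linarith
    have h2 : dist x (t9x K (a, b, c)) ≤ ρ := by
      rw [Prod.dist_eq]
      apply max_le
      · show dist x.1 (-X + (b : ℝ) * ρ) ≤ ρ
        rw [Real.dist_eq, abs_le]
        constructor <;> linarith
      · show dist x.2 (-X + (c : ℝ) * ρ) ≤ ρ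
        rw [Real.dist_eq, abs_le]
        constructor <;> linarith
    linarith

/-- ROW T9 : one stage -/
theorem stage_of (hProc : T9Process)
    (hE1 : ∀ {E : Set (ℝ × ℝ)}, MeasurableSet E → ∀ (i : Fin 2) (K n : ℕ) (r : ℝ)
      (x : ℝ × ℝ), ener (fun k c => bb E i k c r x) K n ≤ 4 / 3)
    (hES : ∀ {E : Set (ℝ × ℝ)}, MeasurableSet E → Bornology.IsBounded E →
      ∀ {ν : ℝ}, 0 < ν → ∃ K₀ : ℕ, ∀ K, K₀ ≤ K → ∀ n : ℕ, ∀ i : Fin 2, ∀ r : ℝ, 1 ≤ r →
        ∀ x : ℝ × ℝ, ener (fun k c => bb E i k c r x) K n ≤ ν * r ^ 2)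
    (hBC : ∀ {E : Set (ℝ × ℝ)}, MeasurableSet E → Bornology.IsBounded E →
      ∃ C : ℝ, 0 ≤ C ∧ ∀ (i : Fin 2) (k : ℕ) (c : ℕ × ℕ) (R r r' : ℝ) (x x' : ℝ × ℝ),
        1 ≤ r → r ≤ R → 1 ≤ r' → r' ≤ R →
        |bb E i k c r x - bb E i k c r' x'| ≤ C * 4 ^ k * R ^ 2 * (|r - r'| + dist x x'))
    (hBZ : ∀ {E : Set (ℝ × ℝ)} {L : ℝ}, (∀ z ∈ E, ‖z‖ ≤ L) → ∀ (i : Fin 2) {k : ℕ}
      {c : ℕ × ℕ}, c ∈ cells k → ∀ {r : ℝ}, 0 < r → ∀ {x : ℝ × ℝ}, 1 + r * L < ‖x‖ →
      bb E i k c r x = 0)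
    (hCL : ∀ {E : Set (ℝ × ℝ)}, MeasurableSet E → Bornology.IsBounded E →
      ∀ {s : ℕ → ℕ × ℕ → ℝ} {K n : ℕ} {r : ℝ}, 0 < r → ∀ {M : ℝ},
      (∀ (i : Fin 2) (x : ℝ × ℝ), |lin s (fun k c => bb E i k c r x) K n| ≤ M) →
      ∀ x x' : ℝ × ℝ,
      |(∫ y, corr s K n y * ff E r x y) - ∫ y, corr s K n y * ff E r x' y| ≤ 2 * M * dist x x')
    (hOff : ∀ (s : ℕ → ℕ × ℕ → ℝ) (K n : ℕ) {y : ℝ × ℝ}, y ∉ BB → corr s K n y = 0)
    (hLip : ∀ {s : ℕ → ℕ × ℕ → ℝ} {A : ℝ}, 0 ≤ A → (∀ k c, |s k c| ≤ A) → ∀ (K n : ℕ)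
      (y y' : ℝ × ℝ), |corr s K n y - corr s K n y'| ≤ 8 * A * 2 ^ (K + n) * dist y y')
    {E : Set (ℝ × ℝ)} (hE : MeasurableSet E) (hb : Bornology.IsBounded E)
    {g₀ : ℝ × ℝ → ℝ} {Λ : ℝ} (hg : Adm Λ g₀) {δ ε : ℝ} (hδ : 0 < δ) (hδ2 : δ ≤ 1 / 2) (hε : 0 < ε) :
    ∃ (g₁ : ℝ × ℝ → ℝ) (Λ' : ℝ), Adm Λ' g₁ ∧ (∀ y, y ∉ BB → g₁ y = g₀ y) ∧ qq g₁ ≤ δ ∧
      (∫ y in BB, (g₁ y - g₀ y) ^ 2) ≤ 2 * qq g₀ + δ ∧
      ∀ r : ℝ, 1 ≤ r → ∀ x x' : ℝ × ℝ,
        |(∫ y, (g₁ y - g₀ y) * ff E r x y) - ∫ y, (g₁ y - g₀ y) * ff E r x' y|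
          ≤ ε * r ^ (7 / 8 : ℝ) * dist x x' := by
  obtain ⟨L0, hL0⟩ := hb.exists_norm_le
  set L : ℝ := max L0 0 with hL
  have hLE : ∀ z ∈ E, ‖z‖ ≤ L := fun z hz => (hL0 z hz).trans (le_max_left _ _)
  have hLnn : 0 ≤ L := le_max_right _ _
  obtain ⟨C, hC0, hC⟩ := hBC hE hb
  set α2 : ℝ := 9 / δ with hα2
  have hα2p : 18 ≤ α2 := by
    rw [hα2, le_div_iff₀ hδ]
    linarith
  set c0 : ℝ := 60 + α2 with hc0
  set R0 : ℝ := (8 * c0 / ε) ^ 2 with hR0
  set μ0 : ℝ := 960 / ε with hμ0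
  have hμ0p : 0 < μ0 := by positivity
  set ν : ℝ := ε / (8 * μ0 * α2 * (R0 ^ 2 + 1)) with hν
  have hνp : 0 < ν := by positivity
  obtain ⟨K₀, hK₀⟩ := hES hE hb hνp
  -- the choice of K
  set M : ℝ := 16 * C / ε + (1 + L) + 4 / ε + Λ ^ 2 + α2 * (38 / δ) ^ 2 + |Real.log (8 / δ)|
    with hM
  have t1 : 0 ≤ 16 * C / ε := by positivity
  have t2 : 0 ≤ 4 / ε := by positivity
  have t3 : 0 ≤ Λ ^ 2 := sq_nonneg _
  have t4 : 0 ≤ α2 * (38 / δ) ^ 2 := by positivity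
  have t5 : 0 ≤ |Real.log (8 / δ)| := abs_nonneg _
  obtain ⟨K, hKK₀, hK2, hKM⟩ : ∃ K : ℕ, K₀ ≤ K ∧ 2 ≤ K ∧ M ≤ K := by
    refine ⟨K₀ + 2 + ⌈M⌉₊, by omega, by omega, ?_⟩
    push_cast
    have := Nat.le_ceil M
    have h2 : (0 : ℝ) ≤ K₀ := Nat.cast_nonneg _
    linarith
  have hKpos : (0 : ℝ) < K := by
    have : 0 < K := by omega
    exact_mod_cast this
  have hQ : (K : ℝ) ≤ 2 ^ K := by
    have : K ≤ 2 ^ K := Nat.lt_two_pow_self.le
    exact_mod_cast this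
  set Q : ℝ := 2 ^ K with hQdef
  have hQ1 : 1 ≤ Q := one_le_pow₀ one_le_two
  have hQ0 : 0 < Q := by positivity
  -- the consequences
  have k1 : 16 * C ≤ ε * Q := by
    have : 16 * C / ε ≤ Q := by linarith
    rw [div_le_iff₀ hε] at this
    linarith
  have k2 : 1 + L ≤ Q := by linarith
  have k3 : 4 ≤ ε * Q := by
    have : 4 / ε ≤ Q := by linarith
    rw [div_le_iff₀ hε] at this
    linarith
  have k4 : Λ ^ 2 ≤ Q := by linarith
  have k5 : α2 * (38 / δ) ^ 2 ≤ K := by linarith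
  have k6 : Real.log (8 / δ) ≤ 12 * K := by
    have := le_abs_self (Real.log (8 / δ))
    linarith
  set A : ℝ := Real.sqrt (α2 / K) with hA
  have hA2 : A ^ 2 = α2 / K := Real.sq_sqrt (by positivity)
  have hA0 : 0 < A := Real.sqrt_pos.2 (by positivity)
  have hAδ : A ≤ δ / 38 := by
    rw [hA]
    apply Real.sqrt_le_iff.2
    refine ⟨by positivity, ?_⟩
    rw [div_le_iff₀ hKpos]
    have h1 : α2 = (δ / 38) ^ 2 * (α2 * (38 / δ) ^ 2) := by
      field_simp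
    calc α2 = (δ / 38) ^ 2 * (α2 * (38 / δ) ^ 2) := h1
      _ ≤ (δ / 38) ^ 2 * K := mul_le_mul_of_nonneg_left k5 (by positivity)
  have hA1 : A ≤ 1 := by linarith
  have hΛ : Λ * (1 / 2) ^ K ≤ A := by
    rw [hA]
    apply Real.le_sqrt_of_sq_le
    rw [le_div_iff₀ hKpos]
    have h1 : (Λ * (1 / 2) ^ K) ^ 2 * K = Λ ^ 2 * K / (Q * Q) := by
      rw [hQdef]
      rw [one_div, inv_pow]
      field_simp
    rw [h1, div_le_iff₀ (by positivity)]
    calc Λ ^ 2 * K ≤ Q * Q := by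
          apply mul_le_mul k4 hQ hKpos.le hQ0.le
      _ ≤ α2 * (Q * Q) := by nlinarith [mul_pos hQ0 hQ0]
  have hκδ : 9 * (2 / (K : ℝ)) / (4 * A ^ 2) + 19 * A ≤ δ := by
    have h1 : 9 * (2 / (K : ℝ)) / (4 * A ^ 2) = δ / 2 := by
      rw [hA2, hα2]
      field_simp
      norm_num
    rw [h1]
    linarith
  -- the tests
  set N1 : ℕ := 2 ^ (23 * K) with hN1
  have hN1p : (0 : ℝ) < (N1 : ℝ) := by rw [hN1]; positivity
  set net : Finset (ℕ × ℕ × ℕ) := Finset.range N1 ×ˢ (Finset.range N1 ×ˢ Finset.range N1) with hnet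
  set Θ : Finset ((ℕ × ℕ × ℕ) × (Fin 2 × Bool × Bool)) := net ×ˢ Finset.univ with hΘ
  have hcardΘ : (Θ.card : ℝ) = 8 * (N1 : ℝ) ^ 3 := by
    rw [hΘ, hnet, Finset.card_product, Finset.card_product, Finset.card_product, Finset.card_range,
      Finset.card_univ]
    simp only [Fintype.card_prod, Fintype.card_fin, Fintype.card_bool]
    push_cast
    ring
  set w0 : ℝ := δ / (8 * (2 ^ (23 * K)) ^ 3) with hw0
  have hw0p : 0 < w0 := by positivity
  set mus : Bool → ℝ := fun b => if b then 1 else μ0 with hmus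
  have hmusp : ∀ b, 0 < mus b := by
    intro b
    cases b
    · exact hμ0p
    · exact one_pos
  set sg : Bool → ℝ := fun b => if b then 1 else -1 with hsg
  obtain ⟨s, hs, hg01, hsum, hor⟩ := hProc g₀ Λ hg A hA0 K hΛ
    ((ℕ × ℕ × ℕ) × (Fin 2 × Bool × Bool)) Θ (fun _ => w0)
    (fun t => sg t.2.2.1 * (mus t.2.2.2 * K)) (fun _ _ => hw0p.le)
    (fun t k c => bb E t.2.1 k c (t9r K t.1) (t9x K t.1)) (2 / K) δ (by positivity) hκδ K
  have hwsum : ∑ _t ∈ Θ, w0 = δ := by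
    rw [Finset.sum_const, nsmul_eq_mul, hcardΘ, hw0, hN1]
    push_cast
    field_simp
  have hq0 : qq g₀ ≤ 1 / 4 := t9_qq_le fun y => ⟨hg.nonneg y, hg.le_one y⟩
  have hq0' : 0 ≤ qq g₀ := t9_qq_nonneg fun y => ⟨hg.nonneg y, hg.le_one y⟩
  have hq1 : 0 ≤ qq (fun y => g₀ y + corr s K K y) := t9_qq_nonneg hg01
  have hqv : 0 ≤ qvar s K K := t9_qvar_nonneg s K K
  have hint : 0 ≤ ∫ y in BB, (corr s K K y) ^ 2 := by
    apply integral_nonneg
    intro y
    exact sq_nonneg _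
  rw [hwsum] at hsum
  set Tsum : ℝ := ∑ t ∈ Θ, w0 * Real.exp ((sg t.2.2.1 * (mus t.2.2.2 * K)) *
    lin s (fun k c => bb E t.2.1 k c (t9r K t.1) (t9x K t.1)) K K
    - (sg t.2.2.1 * (mus t.2.2.2 * K)) ^ 2 * A ^ 2 / 2 *
    ener (fun k c => bb E t.2.1 k c (t9r K t.1) (t9x K t.1)) K K) with hTsum
  have hT0 : 0 ≤ Tsum := Finset.sum_nonneg fun t _ => by positivity
  have hqq : qq (fun y => g₀ y + corr s K K y) ≤ δ := by
    rcases hor with h | h
    · exact h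
    · exfalso
      have h1 : (K : ℝ) * (2 / K) = 2 := by field_simp
      rw [h1] at h
      linarith
  -- the net
  have hpt : ∀ p ∈ net, ∀ (i : Fin 2) (m : Bool),
      |lin s (fun k c => bb E i k c (t9r K p) (t9x K p)) K K| ≤ 60 / mus m
        + mus m * α2 / 2 * ener (fun k c => bb E i k c (t9r K p) (t9x K p)) K K := by
    intro p hp i m
    have h1 : ∀ b : Bool, (sg b * (mus m * K)) *
        lin s (fun k c => bb E i k c (t9r K p) (t9x K p)) K K
        - (sg b * (mus m * K)) ^ 2 * A ^ 2 / 2 *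
        ener (fun k c => bb E i k c (t9r K p) (t9x K p)) K K ≤ 60 * K := by
      intro b
      have h2 : w0 * Real.exp ((sg b * (mus m * K)) *
          lin s (fun k c => bb E i k c (t9r K p) (t9x K p)) K K
          - (sg b * (mus m * K)) ^ 2 * A ^ 2 / 2 *
          ener (fun k c => bb E i k c (t9r K p) (t9x K p)) K K) ≤ Tsum := by
        rw [hTsum]
        exact Finset.single_le_sum (f := fun t : (ℕ × ℕ × ℕ) × (Fin 2 × Bool × Bool) =>
          w0 * Real.exp ((sg t.2.2.1 * (mus t.2.2.2 * K)) *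
          lin s (fun k c => bb E t.2.1 k c (t9r K t.1) (t9x K t.1)) K K
          - (sg t.2.2.1 * (mus t.2.2.2 * K)) ^ 2 * A ^ 2 / 2 *
          ener (fun k c => bb E t.2.1 k c (t9r K t.1) (t9x K t.1)) K K))
          (fun t _ => by positivity) (a := (p, (i, b, m)))
          (Finset.mem_product.2 ⟨hp, Finset.mem_univ _⟩)
      exact (t9_exp hw0p (h2.trans (by linarith))).trans (t9_log hδ k6)
    have hp1 := h1 true
    have hp2 := h1 false
    rw [hA2] at hp1 hp2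
    have hs1 : sg true = 1 := rfl
    have hs2 : sg false = -1 := rfl
    rw [hs1, one_mul] at hp1
    rw [hs2, neg_one_mul] at hp2
    exact t9_comb hKpos (hmusp m) hp1 hp2
  have hnetb : ∀ p ∈ net, 1 ≤ t9r K p → ∀ (i : Fin 2),
      |lin s (fun k c => bb E i k c (t9r K p) (t9x K p)) K K| ≤ ε / 8 * (t9r K p) ^ (7 / 8 : ℝ) := by
    intro p hp hr1 i
    rcases lt_or_ge (t9r K p) R0 with h | h
    · have h1 := hpt p hp i false
      have h2 : mus false = μ0 := rfl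
      rw [h2] at h1
      have h3 := hK₀ K hKK₀ K i (t9r K p) hr1 (t9x K p)
      have h4 : (t9r K p) ^ 2 ≤ R0 ^ 2 := pow_le_pow_left₀ (by linarith) h.le 2
      have h5 : 60 / μ0 = ε / 16 := by
        rw [hμ0]; field_simp; norm_num
      have h6 : μ0 * α2 / 2 * ener (fun k c => bb E i k c (t9r K p) (t9x K p)) K K ≤ ε / 16 := by
        calc μ0 * α2 / 2 * ener (fun k c => bb E i k c (t9r K p) (t9x K p)) K K
            ≤ μ0 * α2 / 2 * (ν * (t9r K p) ^ 2) := by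
              apply mul_le_mul_of_nonneg_left h3 (by positivity)
          _ ≤ μ0 * α2 / 2 * (ν * (R0 ^ 2 + 1)) := by
              apply mul_le_mul_of_nonneg_left _ (by positivity)
              apply mul_le_mul_of_nonneg_left _ hνp.le
              linarith
          _ = ε / 16 := by
              rw [hν]
              have : R0 ^ 2 + 1 ≠ 0 := by positivity
              field_simp
              norm_num
      have h7 : (1 : ℝ) ≤ (t9r K p) ^ (7 / 8 : ℝ) := Real.one_le_rpow hr1 (by norm_num)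
      have h8 : ε / 8 ≤ ε / 8 * (t9r K p) ^ (7 / 8 : ℝ) := by
        apply le_mul_of_one_le_right (by positivity) h7
      linarith
    · have h1 := hpt p hp i true
      have h2 : mus true = 1 := rfl
      rw [h2] at h1
      have h3 := hE1 hE i K K (t9r K p) (t9x K p)
      have h4 : 60 / 1 + 1 * α2 / 2 * ener (fun k c => bb E i k c (t9r K p) (t9x K p)) K K
          ≤ c0 := by
        have h5 : 1 * α2 / 2 * ener (fun k c => bb E i k c (t9r K p) (t9x K p)) K K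
            ≤ 1 * α2 / 2 * (4 / 3) := mul_le_mul_of_nonneg_left h3 (by positivity)
        rw [hc0]
        linarith
      have h5 : 8 * c0 / ε ≤ Real.sqrt (t9r K p) := by
        apply Real.le_sqrt_of_sq_le
        exact h
      have h6 : Real.sqrt (t9r K p) ≤ (t9r K p) ^ (7 / 8 : ℝ) := by
        rw [Real.sqrt_eq_rpow]
        apply Real.rpow_le_rpow_of_exponent_le hr1
        norm_num
      have h7 : c0 ≤ ε / 8 * (t9r K p) ^ (7 / 8 : ℝ) := by
        have h8 : ε / 8 * (8 * c0 / ε) ≤ ε / 8 * (t9r K p) ^ (7 / 8 : ℝ) :=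
          mul_le_mul_of_nonneg_left (h5.trans h6) (by positivity)
        have h9 : ε / 8 * (8 * c0 / ε) = c0 := by field_simp
        linarith
      linarith
  -- all copies
  have hall : ∀ r : ℝ, 1 ≤ r → ∀ (i : Fin 2) (x : ℝ × ℝ),
      |lin s (fun k c => bb E i k c r x) K K| ≤ ε / 2 * r ^ (7 / 8 : ℝ) := by
    intro r hr i x
    have hr0 : 0 < r := by linarith
    have hrp : (1 : ℝ) ≤ r ^ (7 / 8 : ℝ) := Real.one_le_rpow hr (by norm_num)
    rcases le_or_gt r (2 ^ (4 * K)) with h4 | h4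
    · rcases le_or_gt ‖x‖ (2 ^ (5 * K)) with h5 | h5
      · -- near the net
        obtain ⟨p, p1, p2, p3, p4, p5, p6⟩ := t9_dense hK2 hr h4 h5
        have hp : p ∈ net := by
          rw [hnet, Finset.mem_product, Finset.mem_product, Finset.mem_range, Finset.mem_range,
            Finset.mem_range]
          exact ⟨p1, p2, p3⟩
        have h6 := hnetb p hp p5 i
        set D : ℝ := C * (2 ^ (4 * K)) ^ 2 * (2 * (1 / 2 ^ (17 * K))) with hD
        have hD0 : 0 ≤ D := by positivity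
        have h7 : |lin s (fun k c => bb E i k c r x) K K
            - lin s (fun k c => bb E i k c (t9r K p) (t9x K p)) K K| ≤ A * D * 16 ^ (K + K) := by
          apply t9_cmp hA0.le hD0 hs
          intro k c
          refine (hC i k c (2 ^ (4 * K)) r (t9r K p) x (t9x K p) hr h4 p5 (p4.trans h4)).trans ?_
          calc C * 4 ^ k * (2 ^ (4 * K)) ^ 2 * (|r - t9r K p| + dist x (t9x K p))
              ≤ C * 4 ^ k * (2 ^ (4 * K)) ^ 2 * (2 * (1 / 2 ^ (17 * K))) :=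
                mul_le_mul_of_nonneg_left p6 (by positivity)
            _ = D * 4 ^ k := by rw [hD]; ring
        have h8 : A * D * 16 ^ (K + K) ≤ ε / 8 := by
          have e1 : (16 : ℝ) ^ (K + K) = Q ^ 8 := by
            rw [hQdef, ← pow_mul]
            have : (16 : ℝ) = 2 ^ 4 := by norm_num
            rw [this, ← pow_mul]
            congr 1; ring
          have e2 : ((2 : ℝ) ^ (4 * K)) ^ 2 = Q ^ 8 := by
            rw [hQdef, ← pow_mul, ← pow_mul]
            congr 1; ring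
          have e3 : (2 : ℝ) ^ (17 * K) = Q ^ 17 := by
            rw [hQdef, ← pow_mul]
            congr 1; ring
          rw [hD, e1, e2, e3]
          have e4 : A * (C * Q ^ 8 * (2 * (1 / Q ^ 17))) * Q ^ 8 = A * (2 * C) / Q := by
            field_simp
          rw [e4, div_le_iff₀ hQ0]
          calc A * (2 * C) ≤ 1 * (2 * C) := mul_le_mul_of_nonneg_right hA1 (by positivity)
            _ ≤ ε / 8 * Q := by linarith
        have h9 : (t9r K p) ^ (7 / 8 : ℝ) ≤ r ^ (7 / 8 : ℝ) :=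
          Real.rpow_le_rpow (by linarith) p4 (by norm_num)
        have h10 : |lin s (fun k c => bb E i k c r x) K K| ≤
            |lin s (fun k c => bb E i k c r x) K K
            - lin s (fun k c => bb E i k c (t9r K p) (t9x K p)) K K|
            + |lin s (fun k c => bb E i k c (t9r K p) (t9x K p)) K K| := by
          have := abs_add_le (lin s (fun k c => bb E i k c r x) K K
            - lin s (fun k c => bb E i k c (t9r K p) (t9x K p)) K K)
            (lin s (fun k c => bb E i k c (t9r K p) (t9x K p)) K K)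
          simpa using this
        have h11 : ε / 8 * (t9r K p) ^ (7 / 8 : ℝ) ≤ ε / 8 * r ^ (7 / 8 : ℝ) :=
          mul_le_mul_of_nonneg_left h9 (by positivity)
        nlinarith
      · -- far away
        have h6 : 1 + r * L < ‖x‖ := by
          refine lt_of_le_of_lt ?_ h5
          have e2 : ((2 : ℝ) ^ (4 * K)) = Q ^ 4 := by
            rw [hQdef, ← pow_mul]
            congr 1; ring
          have e3 : (2 : ℝ) ^ (5 * K) = Q ^ 5 := by
            rw [hQdef, ← pow_mul]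
            congr 1; ring
          rw [e3]
          rw [e2] at h4
          have h7 : r * L ≤ Q ^ 4 * L := mul_le_mul_of_nonneg_right h4 hLnn
          have h8 : (1 : ℝ) ≤ Q ^ 4 := one_le_pow₀ hQ1
          calc 1 + r * L ≤ Q ^ 4 * (1 + L) := by linarith
            _ ≤ Q ^ 4 * Q := mul_le_mul_of_nonneg_left k2 (by positivity)
            _ = Q ^ 5 := by ring
        have h7 : lin s (fun k c => bb E i k c r x) K K = 0 := by
          unfold lin
          refine Finset.sum_eq_zero fun k _ => Finset.sum_eq_zero fun c hc => ?_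
          show s k c * bb E i k c r x = 0
          rw [hBZ hLE i hc hr0 h6, mul_zero]
        rw [h7, abs_zero]
        positivity
    · -- large copies
      have h5 := t9_cs hA0.le hs K K (hE1 hE i K K r x)
      have e1 : (2 : ℝ) ^ (K + K) = Q ^ 2 := by
        rw [hQdef, ← pow_mul]
        congr 1; ring
      have e2 : ((2 : ℝ) ^ (4 * K)) = Q ^ 4 := by
        rw [hQdef, ← pow_mul]
        congr 1; ring
      rw [e1] at h5
      rw [e2] at h4
      have h6 : Q ^ 3 ≤ r ^ (7 / 8 : ℝ) := by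
        have h7 : (Q ^ 4) ^ (3 / 4 : ℝ) = Q ^ 3 := by
          rw [← Real.rpow_natCast, ← Real.rpow_natCast, ← Real.rpow_mul hQ0.le]
          norm_num
        rw [← h7]
        calc (Q ^ 4) ^ (3 / 4 : ℝ) ≤ r ^ (3 / 4 : ℝ) :=
              Real.rpow_le_rpow (by positivity) h4.le (by norm_num)
          _ ≤ r ^ (7 / 8 : ℝ) := Real.rpow_le_rpow_of_exponent_le hr (by norm_num)
      have h7 : 2 * A * Q ^ 2 ≤ ε / 2 * Q ^ 3 := by
        have h8 : 2 * A * Q ^ 2 ≤ 2 * 1 * Q ^ 2 := by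
          apply mul_le_mul_of_nonneg_right _ (by positivity)
          linarith
        have h9 : 2 * 1 * Q ^ 2 ≤ ε / 2 * Q ^ 3 := by
          have : ε / 2 * Q ^ 3 = (ε * Q) / 2 * Q ^ 2 := by ring
          rw [this]
          apply mul_le_mul_of_nonneg_right _ (by positivity)
          linarith
        linarith
      have h8 : ε / 2 * Q ^ 3 ≤ ε / 2 * r ^ (7 / 8 : ℝ) :=
        mul_le_mul_of_nonneg_left h6 (by positivity)
      linarith
  refine ⟨fun y => g₀ y + corr s K K y, Λ + 8 * A * 2 ^ (K + K), ⟨fun y => (hg01 y).1,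
    fun y => (hg01 y).2, fun y y' => ?_⟩, fun y hy => ?_, hqq, ?_, fun r hr x x' => ?_⟩
  · have h1 := hg.lip y y'
    have h2 := hLip hA0.le hs K K y y'
    have h3 := abs_add_le (g₀ y - g₀ y') (corr s K K y - corr s K K y')
    have h4 : g₀ y + corr s K K y - (g₀ y' + corr s K K y')
        = (g₀ y - g₀ y') + (corr s K K y - corr s K K y') := by ring
    rw [h4, add_mul]
    linarith
  · simp only
    rw [hOff s K K hy, add_zero]
  · have h1 : ∀ y, (g₀ y + corr s K K y - g₀ y) ^ 2 = (corr s K K y) ^ 2 := fun y => by ring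
    simp only [h1]
    linarith
  · have h1 : ∀ y, g₀ y + corr s K K y - g₀ y = corr s K K y := fun y => by ring
    simp only [h1]
    have h2 := hCL hE hb (by linarith : 0 < r) (hall r hr) x x'
    calc _ ≤ 2 * (ε / 2 * r ^ (7 / 8 : ℝ)) * dist x x' := h2
      _ = ε * r ^ (7 / 8 : ℝ) * dist x x' := by ring

end Pool.Agent.Helper37.RT
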