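import Pool.Agent.Helper37.RT.T7
import Pool.Agent.Helper87.RT.T3
import Pool.Agent.Helper52.RT.T8
import Pool.Agent.Helper47.RT.T5
import Pool.Agent.Helper84.RT.T6
import Pool.Agent.Helper19.RT.T9
import Pool.Agent.Helper13.RT.T10
import Pool.Agent.Helper84.RT.T11
import Pool.Agent.Helper47.RT.T12

/-!
Assembly of the proof of Q1 of MP_b01677_an in the plane.
-/

namespace Pool.Agent.Helper37.RT

open MeasureTheory Set Filter Topology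
open scoped ENNReal

/-- T9 -/
theorem stage {E : Set (ℝ × ℝ)} (hE : MeasurableSet E) (hb : Bornology.IsBounded E)
    {g₀ : ℝ × ℝ → ℝ} {Λ : ℝ} (hg : Adm Λ g₀) {δ ε : ℝ} (hδ : 0 < δ) (hδ2 : δ ≤ 1 / 2) (hε : 0 < ε) :
    ∃ (g₁ : ℝ × ℝ → ℝ) (Λ' : ℝ), Adm Λ' g₁ ∧ (∀ y, y ∉ BB → g₁ y = g₀ y) ∧ qq g₁ ≤ δ ∧
      (∫ y in BB, (g₁ y - g₀ y) ^ 2) ≤ 2 * qq g₀ + δ ∧
      ∀ r : ℝ, 1 ≤ r → ∀ x x' : ℝ × ℝ,
        |(∫ y, (g₁ y - g₀ y) * ff E r x y) - ∫ y, (g₁ y - g₀ y) * ff E r x' y|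
          ≤ ε * r ^ (7 / 8 : ℝ) * dist x x' :=
  stage_of
    (fun _ _ hg _ hA _ hK _ Θ w lam hw b _ _ hκ hδ n => process hg hA hK Θ w lam hw b hκ hδ n)
    (fun hE i K n r x => energy_one hE i K n r x)
    (fun hE hb _ hν => energy_small hE hb hν)
    (fun hE hb => bb_cont hE hb)
    (fun hL i _ _ hc _ hr _ hx => bb_zero hL i hc hr hx)
    (fun hE hb _ _ _ _ hr _ hM x x' => corr_lip_x hE hb hr hM x x')
    (fun s K n _ hy => corr_off s K n hy)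
    (fun hA hs K n y y' => corr_lip hA hs K n y y')
    hE hb hg hδ hδ2 hε

/-- T10 -/
theorem block {E : Set (ℝ × ℝ)} (hE : MeasurableSet E) (hb : Bornology.IsBounded E)
    {h : ℝ × ℝ → ℝ} {Λ : ℝ} (hh : Adm Λ h) {ε : ℝ} (hε : 0 < ε) :
    ∃ T : Set (ℝ × ℝ), MeasurableSet T ∧ T ⊆ BB ∧ ∀ r : ℝ, 1 ≤ r → ∀ x x' : ℝ × ℝ,
      |(∫ y in BB, (T.indicator (fun _ => (1 : ℝ)) y - h y) * ff E r x y)
          - ∫ y in BB, (T.indicator (fun _ => (1 : ℝ)) y - h y) * ff E r x' y|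
        ≤ ε * r ^ (7 / 8 : ℝ) * dist x x' :=
  block_of hE (fun _ _ hg _ _ h1 h2 h3 => stage hE hb hg h1 h2 h3) hh hε

/-- T11 -/
theorem global {E : Set (ℝ × ℝ)} (hE : MeasurableSet E) (hb : Bornology.IsBounded E)
    (hpos : 0 < volume E) :
    ∃ T : Fin 2 → Set (ℝ × ℝ), (∀ i, MeasurableSet (T i)) ∧ ∀ r : ℝ, 1 ≤ r → ∀ x x' : ℝ × ℝ,
      (∀ i, ∫ y, (T i).indicator (fun _ => (1 : ℝ)) y * ff E r x y
        = ∫ y, (T i).indicator (fun _ => (1 : ℝ)) y * ff E r x' y) → x = x' :=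
  global_of hE hb hpos (fun _ _ hh _ hε => block hE hb hh hε)

/-- T12 -/
theorem reconstruct_two {E : Set (Fin 2 → ℝ)} (hE : NullMeasurableSet E volume)
    (hb : Bornology.IsBounded E) (hpos : 0 < volume E) :
    Pool.Agent.Helper47.Recon.CanReconstruct (Pool.Agent.Helper47.Recon.magnifiedCopies E) 3 :=
  reconstruct_two_of (fun hE hb hpos => global hE hb hpos) hE hb hpos

end Pool.Agent.Helper37.RT
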